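import Mathlib
import Pool.Agent.H90.P.Ns

/-!
The residues of rational forms with poles along a smooth hypersurface: they are pluricanonical
forms, regular at all places, and they are not zero.
-/

set_option autoImplicit false

open FF MvPolynomial Pool.Agent.W603.LV Pool.Agent.W602.GT Pool.Agent.Y184.NT

namespace Pool.Agent.Y988.NT

section

variable {K : Type} [Field K]

end

section

variable {K : Type} [Field K] [Algebra ℂ K]

theorem der_aeval {d : ℕ} (D : Derivation ℂ K K) (x : Fin d → K) (F : MvPolynomial (Fin d) ℂ) :
    D (aeval x F) = ∑ l, aeval x (pderiv l F) * D (x l) := by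
  classical
  induction F using MvPolynomial.induction_on with
  | C a => simp
  | add p q hp hq => simp only [map_add, hp, hq, add_mul, Finset.sum_add_distrib]
  | mul_X p i hp =>
    have h1 : ∀ b, aeval x (pderiv b (p * X i)) * D (x b) =
        (if b = i then aeval x p * D (x b) else 0) + x i * (aeval x (pderiv b p) * D (x b)) := by
      intro b
      rw [(pderiv b).leibniz, smul_eq_mul, smul_eq_mul, map_add, map_mul, map_mul, aeval_X,
        pderiv_X, add_mul]
      congr 1
      · by_cases hb : b = i
        · subst hb
          simp
        · rw [if_neg hb, Pi.single_eq_of_ne (Ne.symm hb)]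
          simp
      · ring
    rw [map_mul, aeval_X, D.leibniz, hp, Finset.sum_congr rfl fun b _ => h1 b,
      Finset.sum_add_distrib, Finset.sum_ite_eq' Finset.univ i, if_pos (Finset.mem_univ _),
      ← Finset.mul_sum, smul_eq_mul, smul_eq_mul]

end

end Pool.Agent.Y988.NT
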